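import Mathlib
import Pool.Agent.helper62.K3.Defs

/-! # hk:P9B (MP_90cd86_gt): fixed points of the even sign changes -/

noncomputable section

namespace Pool.Agent.helper62.K3

/-- the exponents of the signs -/
def P9B_s (v : Fin 4 → ZMod 2) (i : Fin 6) : ZMod 2 :=
  ![0, v 0, v 1, v 2, v 3, v 0 + v 1 + v 2 + v 3] i

theorem P9B_sg (v : Fin 4 → ZMod 2) (i : Fin 6) : sg4 v i = (-1) ^ (P9B_s v i).val := by
  fin_cases i
  · simp [sg4, P9B_s]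
  · rfl
  · rfl
  · rfl
  · rfl
  · rfl

theorem P9B_comb : ∀ a b c d : ZMod 2, ¬ (a = 0 ∧ b = 0 ∧ c = 0 ∧ d = 0) →
    ∃ i₁ i₂ j₁ j₂ : Fin 6, i₁ ≠ i₂ ∧ j₁ ≠ j₂ ∧
      (![0, a, b, c, d, a + b + c + d] : Fin 6 → ZMod 2) i₁ = 1 ∧
      (![0, a, b, c, d, a + b + c + d] : Fin 6 → ZMod 2) i₂ = 1 ∧
      (![0, a, b, c, d, a + b + c + d] : Fin 6 → ZMod 2) j₁ = 0 ∧
      (![0, a, b, c, d, a + b + c + d] : Fin 6 → ZMod 2) j₂ = 0 := by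
  decide

/-- hk:P9B fixed points -/
theorem P9B (v : Fin 4 → ZMod 2) (T : X0)
    (h : ∀ i j : Fin 6, sg4 v i * sg4 v j * T.1 i j = T.1 i j)
    (hT : ¬ ∃ i j, i ≠ j ∧ T.1 i i = 0 ∧ T.1 j j = 0) : v = 0 := by
  by_contra hv
  have hv' : ¬ (v 0 = 0 ∧ v 1 = 0 ∧ v 2 = 0 ∧ v 3 = 0) := by
    rintro ⟨h0, h1, h2, h3⟩
    apply hv
    funext i
    fin_cases i
    · exact h0
    · exact h1
    · exact h2
    · exact h3
  obtain ⟨i₁, i₂, j₁, j₂, hi, hj, hi1, hi2, hj1, hj2⟩ := P9B_comb _ _ _ _ hv'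
  obtain ⟨x, -, -, hx⟩ := T.2
  have key : ∀ i j : Fin 6, P9B_s v i = 1 → P9B_s v j = 0 → x i = 0 ∨ x j = 0 := by
    intro i j h1 h2
    have h3 := h i j
    rw [P9B_sg, P9B_sg, h1, h2, hx] at h3
    have h4 : x i * (starRingEnd ℂ) (x j) = 0 := by
      have h5 : ((1 : ZMod 2).val) = 1 := rfl
      rw [h5, ZMod.val_zero, pow_one, pow_zero] at h3
      linear_combination (-1 / 2 : ℂ) * h3
    rcases mul_eq_zero.mp h4 with h5 | h5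
    · exact Or.inl h5
    · exact Or.inr ((map_eq_zero _).mp h5)
  have hne : ∀ i j : Fin 6, P9B_s v i = 1 → P9B_s v j = 0 → i ≠ j := by
    rintro i j h1 h2 rfl
    rw [h1] at h2
    exact one_ne_zero h2
  have hz : ∀ i, x i = 0 → T.1 i i = 0 := by
    intro i hi
    rw [hx, hi, zero_mul]
  apply hT
  rcases key i₁ j₁ hi1 hj1 with h1 | h1
  · rcases key i₂ j₂ hi2 hj2 with h2 | h2
    · exact ⟨i₁, i₂, hi, hz _ h1, hz _ h2⟩
    · exact ⟨i₁, j₂, hne _ _ hi1 hj2, hz _ h1, hz _ h2⟩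
  · rcases key i₂ j₂ hi2 hj2 with h2 | h2
    · exact ⟨i₂, j₁, hne _ _ hi2 hj1, hz _ h2, hz _ h1⟩
    · exact ⟨j₁, j₂, hj, hz _ h1, hz _ h2⟩

end Pool.Agent.helper62.K3
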