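import Mathlib
import Pool.Agent.helper62.K3.Defs
import Pool.Agent.helper46.HK.P1

/-! # hk:P9C (MP_90cd86_gt): the number of points of X0 with two vanishing coordinates -/

noncomputable section

namespace Pool.Agent.helper62.K3

/-- the products of differences -/
def P9C_d : Fin 6 → ℂ := ![-120, 24, -12, 12, -24, 120]

theorem P9C_d_ne (m : Fin 6) : P9C_d m ≠ 0 := by
  fin_cases m <;> simp [P9C_d]

/-- the element of `KK` vanishing at the two coordinates of `p` -/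
def P9C_y (p : Fin 6 × Fin 6) (m : Fin 6) : ℂ :=
  (((m : ℕ) : ℂ) - ((p.1 : ℕ) : ℂ)) * (((m : ℕ) : ℂ) - ((p.2 : ℕ) : ℂ)) / P9C_d m

theorem P9C_id (a b : ℂ) (k : Fin 3) :
    ∑ m : Fin 6, ((m : ℕ) : ℂ) ^ (k : ℕ) *
      ((((m : ℕ) : ℂ) - a) * (((m : ℕ) : ℂ) - b) / P9C_d m) = 0 := by
  fin_cases k
  · simp [Fin.sum_univ_six, P9C_d]
    ring
  · simp [Fin.sum_univ_six, P9C_d]
    ring
  · simp [Fin.sum_univ_six, P9C_d]
    ring

theorem P9C_y_mem (p : Fin 6 × Fin 6) : P9C_y p ∈ KK := by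
  intro k
  exact P9C_id _ _ k

theorem P9C_y_zero (p : Fin 6 × Fin 6) (m : Fin 6) : P9C_y p m = 0 ↔ m = p.1 ∨ m = p.2 := by
  rw [P9C_y, div_eq_zero_iff, mul_eq_zero, sub_eq_zero, sub_eq_zero, Nat.cast_inj, Nat.cast_inj,
    Fin.val_inj, Fin.val_inj]
  have := P9C_d_ne m
  tauto

/-- a square root of `P9C_y` -/
def P9C_s (p : Fin 6 × Fin 6) (m : Fin 6) : ℂ := (P9C_y p m) ^ (((2 : ℕ) : ℂ)⁻¹)

theorem P9C_s_sq (p : Fin 6 × Fin 6) (m : Fin 6) : P9C_s p m ^ 2 = P9C_y p m :=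
  Complex.cpow_nat_inv_pow _ two_ne_zero

theorem P9C_s_zero (p : Fin 6 × Fin 6) (m : Fin 6) : P9C_s p m = 0 ↔ m = p.1 ∨ m = p.2 := by
  rw [← P9C_y_zero, ← P9C_s_sq, sq_eq_zero_iff]

/-- the square of the norm -/
def P9C_N (p : Fin 6 × Fin 6) : ℝ := ∑ m, ‖P9C_s p m‖ ^ 2

theorem P9C_N_pos (p : Fin 6 × Fin 6) : 0 < P9C_N p := by
  have h : ∀ p : Fin 6 × Fin 6, ∃ m : Fin 6, m ≠ p.1 ∧ m ≠ p.2 := by decide
  obtain ⟨m, h1, h2⟩ := h p
  refine Finset.sum_pos' (fun _ _ => by positivity) ⟨m, Finset.mem_univ _, ?_⟩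
  have h3 : P9C_s p m ≠ 0 := by
    rw [Ne, P9C_s_zero]
    tauto
  have := norm_pos_iff.mpr h3
  positivity

/-- the sign -/
def P9C_g (b : Bool) : ℂ := cond b 1 (-1)

theorem P9C_g_sq (b : Bool) : P9C_g b ^ 2 = 1 := by
  cases b <;> simp [P9C_g]

theorem P9C_g_norm (b : Bool) : ‖P9C_g b‖ = 1 := by
  cases b <;> simp [P9C_g]

theorem P9C_g_conj (b : Bool) : (starRingEnd ℂ) (P9C_g b) = P9C_g b := by
  cases b <;> simp [P9C_g]

theorem P9C_g_inj (b c : Bool) (h : P9C_g b = P9C_g c) : b = c := by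
  cases b <;> cases c <;> first | rfl | (exfalso; norm_num [P9C_g] at h)

theorem P9C_g_ne (b : Bool) : P9C_g b ≠ 0 := by
  cases b <;> simp [P9C_g]

/-- the unit vector -/
def P9C_x (p : Fin 6 × Fin 6) (t : Fin 6 → Bool) (m : Fin 6) : ℂ :=
  P9C_g (t m) * P9C_s p m * ((√(P9C_N p) : ℝ) : ℂ)⁻¹

theorem P9C_x_sq (p : Fin 6 × Fin 6) (t : Fin 6 → Bool) (m : Fin 6) :
    P9C_x p t m ^ 2 = P9C_y p m * ((P9C_N p : ℝ) : ℂ)⁻¹ := by
  have h : ((√(P9C_N p) : ℝ) : ℂ) ^ 2 = ((P9C_N p : ℝ) : ℂ) := by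
    rw [← Complex.ofReal_pow, Real.sq_sqrt (P9C_N_pos p).le]
  rw [P9C_x, mul_pow, mul_pow, P9C_g_sq, P9C_s_sq, inv_pow, h, one_mul]

theorem P9C_x_norm (p : Fin 6 × Fin 6) (t : Fin 6 → Bool) (m : Fin 6) :
    ‖P9C_x p t m‖ ^ 2 = ‖P9C_s p m‖ ^ 2 * (P9C_N p)⁻¹ := by
  rw [P9C_x, norm_mul, norm_mul, P9C_g_norm, norm_inv, Complex.norm_real, Real.norm_eq_abs,
    abs_of_nonneg (Real.sqrt_nonneg _), mul_pow, mul_pow, inv_pow, Real.sq_sqrt (P9C_N_pos p).le]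
  ring

theorem P9C_x_one (p : Fin 6 × Fin 6) (t : Fin 6 → Bool) : ∑ m, ‖P9C_x p t m‖ ^ 2 = 1 := by
  simp only [P9C_x_norm]
  rw [← Finset.sum_mul]
  exact mul_inv_cancel₀ (P9C_N_pos p).ne'

/-- the point of `X0` -/
def P9C_pt (p : Fin 6 × Fin 6) (t : Fin 6 → Bool) : X0 :=
  ⟨fun i j => P9C_x p t i * (starRingEnd ℂ) (P9C_x p t j), P9C_x p t, by
    constructor
    · intro h
      have h1 := P9C_x_one p t
      rw [h] at h1
      simp at h1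
    · intro m
      simp only [P9C_x_sq]
      have h2 := P9C_y_mem p m
      simp only [← mul_assoc]
      rw [← Finset.sum_mul, h2, zero_mul], P9C_x_one p t, fun _ _ => rfl⟩

theorem P9C_pt_apply (p : Fin 6 × Fin 6) (t : Fin 6 → Bool) (i j : Fin 6) :
    (P9C_pt p t).1 i j = P9C_g (t i) * P9C_g (t j) * (P9C_s p i * (starRingEnd ℂ) (P9C_s p j)) *
      ((P9C_N p : ℝ) : ℂ)⁻¹ := by
  have h : ((√(P9C_N p) : ℝ) : ℂ) ^ 2 = ((P9C_N p : ℝ) : ℂ) := by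
    rw [← Complex.ofReal_pow, Real.sq_sqrt (P9C_N_pos p).le]
  change P9C_x p t i * (starRingEnd ℂ) (P9C_x p t j) = _
  rw [P9C_x, P9C_x, map_mul, map_mul, map_inv₀, Complex.conj_ofReal, P9C_g_conj, ← h]
  rw [sq, mul_inv]
  ring

theorem P9C_pt_zero (p : Fin 6 × Fin 6) (t : Fin 6 → Bool) (i : Fin 6) :
    (P9C_pt p t).1 i i = 0 ↔ i = p.1 ∨ i = p.2 := by
  rw [P9C_pt_apply, ← P9C_s_zero]
  have h1 := P9C_g_ne (t i)
  have h2 : ((P9C_N p : ℝ) : ℂ) ≠ 0 := Complex.ofReal_ne_zero.mpr (P9C_N_pos p).ne'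
  simp [h1, h2]

/-- the first index outside the pair -/
def P9C_m (p : Fin 6 × Fin 6) : Fin 6 := if p.1 ≠ 0 then 0 else if p.2 ≠ 1 then 1 else 2

theorem P9C_m_spec : ∀ p : Fin 6 × Fin 6, p.1 < p.2 → P9C_m p ≠ p.1 ∧ P9C_m p ≠ p.2 := by
  decide

/-- the index type -/
abbrev P9C_J : Type :=
  {q : (Fin 6 × Fin 6) × (Fin 6 → Bool) //
    q.1.1 < q.1.2 ∧ q.2 q.1.1 = true ∧ q.2 q.1.2 = true ∧ q.2 (P9C_m q.1) = true}

theorem P9C_card : Fintype.card P9C_J = 120 := by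
  decide +kernel

theorem P9C_inj : Function.Injective (fun q : P9C_J => P9C_pt q.1.1 q.1.2) := by
  rintro ⟨⟨p, t⟩, h1, h2, h3, h4⟩ ⟨⟨p', t'⟩, h1', h2', h3', h4'⟩ h
  simp only at h h1 h2 h3 h4 h1' h2' h3' h4'
  have hz : ∀ i, (i = p.1 ∨ i = p.2) ↔ (i = p'.1 ∨ i = p'.2) := by
    intro i
    rw [← P9C_pt_zero p t, h, P9C_pt_zero]
  have hp : p = p' := by
    have a1 := (hz p.1).mp (Or.inl rfl)
    have a2 := (hz p.2).mp (Or.inr rfl)
    ext1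
    · rcases a1 with a1 | a1
      · exact a1
      · rcases a2 with a2 | a2
        · rw [a1, a2] at h1
          exact absurd h1' (not_lt.mpr h1.le)
        · rw [a1, a2] at h1
          exact absurd h1 (lt_irrefl _)
    · rcases a2 with a2 | a2
      · rcases a1 with a1 | a1
        · rw [a1, a2] at h1
          exact absurd h1 (lt_irrefl _)
        · rw [a1, a2] at h1
          exact absurd h1' (not_lt.mpr h1.le)
      · exact a2
  subst hp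
  obtain ⟨k1, k2⟩ := P9C_m_spec p h1
  have ht : t = t' := by
    funext m
    by_cases hm : m = p.1
    · rw [hm, h2, h2']
    by_cases hm2 : m = p.2
    · rw [hm2, h3, h3']
    have e := congrArg (fun T : X0 => T.1 m (P9C_m p)) h
    simp only [P9C_pt_apply, h4, h4'] at e
    have s1 : P9C_s p m ≠ 0 := by
      rw [Ne, P9C_s_zero]
      tauto
    have s2 : (starRingEnd ℂ) (P9C_s p (P9C_m p)) ≠ 0 := by
      rw [Ne, map_eq_zero, P9C_s_zero]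
      tauto
    have s3 : ((P9C_N p : ℝ) : ℂ) ≠ 0 := Complex.ofReal_ne_zero.mpr (P9C_N_pos p).ne'
    have e2 := mul_right_cancel₀ (inv_ne_zero s3) e
    have e3 := mul_right_cancel₀ (mul_ne_zero s1 s2) e2
    exact P9C_g_inj _ _ (mul_right_cancel₀ (P9C_g_ne _) e3)
  subst ht
  rfl

theorem P9C_sur (T : X0) (p : Fin 6 × Fin 6) (hp : p.1 < p.2) (h1 : T.1 p.1 p.1 = 0)
    (h2 : T.1 p.2 p.2 = 0) : ∃ q : P9C_J, P9C_pt q.1.1 q.1.2 = T := by
  obtain ⟨x, hx, hn, hT⟩ := T.2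
  obtain ⟨k1, k2⟩ := P9C_m_spec p hp
  have hx1 : x p.1 = 0 := by
    rw [hT, mul_eq_zero, map_eq_zero, or_self] at h1
    exact h1
  have hx2 : x p.2 = 0 := by
    rw [hT, mul_eq_zero, map_eq_zero, or_self] at h2
    exact h2
  have hy0 : P9C_y p (P9C_m p) ≠ 0 := by
    rw [Ne, P9C_y_zero]
    tauto
  set c : ℂ := x (P9C_m p) ^ 2 / P9C_y p (P9C_m p) with hc
  have hK : (fun m => x m ^ 2 - c * P9C_y p m) ∈ KK := by
    intro k
    have a1 := hx.2 k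
    have a2 := P9C_y_mem p k
    calc ∑ i : Fin 6, ((i : ℕ) : ℂ) ^ (k : ℕ) * (x i ^ 2 - c * P9C_y p i)
        = ∑ i : Fin 6, ((i : ℕ) : ℂ) ^ (k : ℕ) * x i ^ 2
          - c * ∑ i : Fin 6, ((i : ℕ) : ℂ) ^ (k : ℕ) * P9C_y p i := by
          rw [Finset.mul_sum, ← Finset.sum_sub_distrib]
          exact Finset.sum_congr rfl fun i _ => by ring
      _ = 0 := by rw [a1, a2, mul_zero, sub_zero]
  have hz1 : P9C_y p p.1 = 0 := (P9C_y_zero p p.1).mpr (Or.inl rfl)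
  have hz2 : P9C_y p p.2 = 0 := (P9C_y_zero p p.2).mpr (Or.inr rfl)
  have h0 := P1_zero p.1 p.2 (P9C_m p) hp.ne k1.symm k2.symm _ hK
    (by simp only [hx1, hz1]; ring) (by simp only [hx2, hz2]; ring)
    (by simp only [hc]; field_simp; ring)
  have hxy : ∀ m, x m ^ 2 = c * P9C_y p m := fun m => sub_eq_zero.mp (congrFun h0 m)
  set γ : ℂ := c ^ (((2 : ℕ) : ℂ)⁻¹) with hγ
  have hγ2 : γ ^ 2 = c := Complex.cpow_nat_inv_pow _ two_ne_zero
  have hsg : ∀ m, ∃ b : Bool, x m = P9C_g b * (γ * P9C_s p m) := by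
    intro m
    have a : x m ^ 2 = (γ * P9C_s p m) ^ 2 := by
      rw [hxy, mul_pow, hγ2, P9C_s_sq]
    rcases sq_eq_sq_iff_eq_or_eq_neg.mp a with a | a
    · exact ⟨true, by rw [a]; simp [P9C_g]⟩
    · exact ⟨false, by rw [a]; simp [P9C_g]⟩
  choose e he using hsg
  have hN : ‖γ‖ ^ 2 * P9C_N p = 1 := by
    rw [← hn, P9C_N, Finset.mul_sum]
    refine Finset.sum_congr rfl fun m _ => ?_
    rw [he m, norm_mul, norm_mul, P9C_g_norm]
    ring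
  have hN2 : γ * (starRingEnd ℂ) γ = ((P9C_N p : ℝ) : ℂ)⁻¹ := by
    rw [Complex.mul_conj, Complex.normSq_eq_norm_sq, ← Complex.ofReal_inv]
    congr 1
    exact eq_inv_of_mul_eq_one_left hN
  -- the normalised signs
  let t : Fin 6 → Bool := fun m =>
    if m = p.1 ∨ m = p.2 then true else (e m == e (P9C_m p))
  have t1 : t p.1 = true := if_pos (Or.inl rfl)
  have t2 : t p.2 = true := if_pos (Or.inr rfl)
  have t3 : t (P9C_m p) = true := by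
    have : t (P9C_m p) = (e (P9C_m p) == e (P9C_m p)) := if_neg (by tauto)
    rw [this]
    exact beq_self_eq_true _
  have t4 : ∀ m, m ≠ p.1 → m ≠ p.2 → P9C_g (t m) = P9C_g (e m) * P9C_g (e (P9C_m p)) := by
    intro m a b
    have : t m = (e m == e (P9C_m p)) := if_neg (by tauto)
    rw [this]
    cases e m <;> cases e (P9C_m p) <;> simp [P9C_g]
  refine ⟨⟨(p, t), hp, t1, t2, t3⟩, ?_⟩
  apply Subtype.ext
  funext i j
  change (P9C_pt p t).1 i j = T.1 i j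
  rw [P9C_pt_apply, hT, he i, he j, ← hN2, map_mul, map_mul, P9C_g_conj]
  by_cases hi : i = p.1 ∨ i = p.2
  · rw [(P9C_s_zero p i).mpr hi]
    ring
  by_cases hj : j = p.1 ∨ j = p.2
  · rw [(P9C_s_zero p j).mpr hj, map_zero]
    ring
  rw [not_or] at hi hj
  rw [t4 i hi.1 hi.2, t4 j hj.1 hj.2]
  have hs := P9C_g_sq (e (P9C_m p))
  linear_combination (P9C_g (e i) * P9C_g (e j) * (P9C_s p i * (starRingEnd ℂ) (P9C_s p j)) *
    (γ * (starRingEnd ℂ) γ)) * hs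

theorem P9C_range : {T : X0 | ∃ i j, i ≠ j ∧ T.1 i i = 0 ∧ T.1 j j = 0} =
    Set.range (fun q : P9C_J => P9C_pt q.1.1 q.1.2) := by
  ext T
  constructor
  · rintro ⟨i, j, hij, hi, hj⟩
    rcases lt_or_gt_of_ne hij with h | h
    · obtain ⟨q, hq⟩ := P9C_sur T (i, j) h hi hj
      exact ⟨q, hq⟩
    · obtain ⟨q, hq⟩ := P9C_sur T (j, i) h hj hi
      exact ⟨q, hq⟩
  · rintro ⟨q, rfl⟩
    exact ⟨q.1.1.1, q.1.1.2, q.2.1.ne, (P9C_pt_zero _ _ _).mpr (Or.inl rfl),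
      (P9C_pt_zero _ _ _).mpr (Or.inr rfl)⟩

/-- hk:P9C number of fixed points -/
theorem P9C : {T : X0 | ∃ i j, i ≠ j ∧ T.1 i i = 0 ∧ T.1 j j = 0}.Finite ∧
    {T : X0 | ∃ i j, i ≠ j ∧ T.1 i i = 0 ∧ T.1 j j = 0}.ncard = 120 := by
  rw [P9C_range]
  refine ⟨Set.finite_range _, ?_⟩
  rw [← Set.image_univ, Set.ncard_image_of_injective _ P9C_inj, Set.ncard_univ,
    Nat.card_eq_fintype_card, P9C_card]

end Pool.Agent.helper62.K3
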